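import Pool.Agent.Helper3.GT.Thick
import Pool.Agent.Helper3.GU.Lst

/-!
# Chow-Künneth decompositions and graph hypersurfaces

Let `k` be a prime field, `D` Voevodsky's triangulated category of geometric motives over `k` with rational
coefficients, `M^c(X)` the motive with compact supports of a separated scheme `X` of finite type over `k`
(`M^c(X) = h(X)` for smooth projective `X`, `End(h(X)) = CH^d(X × X)_ℚ`), `M(a)[2a]`, `a ∈ ℤ`, the Tate twists,
and `H^j` the cohomology groups of a Weil cohomology theory with coefficients in `K`. The properties which
are used (`IsMotives`) are known: localization triangles, affine bundles, `M^c(X)[1]` is a direct summand of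
`M^c(X × 𝔾_m)`, there are no positive morphisms between Chow motives, and Chow motives generate. A Chow motive is
a direct summand of a finite direct sum of motives `h(Y)(a)[2a]`, `Y` smooth and projective (`Chow`).

A Chow motive is called **good** if its Künneth projectors are algebraic and its homologically trivial
endomorphisms form a nilpotent ideal (`Kuenneth`, `Nilp`). By the conjecture of Beilinson and Murre on
filtrations of Chow groups all Chow motives are good; products of curves, abelian varieties etc. are known to
be good. The motive `h(X)` of a smooth projective `X` is good if and only if `X` has a Chow-Künneth decomposition and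
the ideal is nilpotent. The scheme `X` is called **tame** (`Tame`) if `M^c(X)` is in the thick triangulated
subcategory of `D` generated by the good Chow motives: it can be built from finitely many good Chow motives by
cones and direct summands. (For Tate motives this is the notion of a mixed Tate motive.)

For a simple graph `G` with the vertices `0, …, n` let `K_G` be the Kirchhoff polynomial (the sum over the
spanning trees of the products of the variables of their edges) and `Ψ_G` the first Symanzik polynomial
(of the Feynman integrals). We consider the graphs with at most three edges at each vertex (`Subcubic`);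
they are obtained by leaving out and subdividing edges of Feynman graphs of the `φ³`-theory.

**Theorem.** (1) For each smooth projective scheme `X` over `k` there is a finite list `L` of such graphs
(depending only on `X`) such that `X` has a Chow-Künneth decomposition, and the homologically trivial
correspondences of `X` form a nilpotent ideal, if one of the following is true: the complements of the graph
hypersurfaces `K_G = 0`, `G` in `L`, in the affine spaces are tame; the hypersurfaces `K_G = 0` are tame; their
complements in the tori are tame; the complements of `Ψ_G = 0` in the tori are tame. (And all separated schemes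
`X` of finite type are tame under the same condition, for a suitable list.)

(2) The following are equivalent: all smooth projective schemes over `k` have Chow-Künneth decompositions and
nilpotent ideals of homologically trivial correspondences; all separated schemes of finite type are tame; all
complements of graph hypersurfaces `K_G = 0` in the affine spaces are tame; all graph hypersurfaces `K_G = 0` are
tame; all their complements in the tori are tame; all complements of `Ψ_G = 0` in the tori are tame.

So Q1 (in the stronger form with nilpotence) is a statement on the mixed motives of the hypersurfaces of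
Feynman graphs.

Proof. The tame schemes have the closure properties of the theorem on graph hypersurfaces
(`Pool.Agent.Helper3.GU.finite_list`). The good Chow motives are closed under direct sums, direct summands and
twists (a two-sided ideal is nilpotent if its corners for complementary idempotents are nilpotent). By a weight
argument (Bondarko; `Pool.Agent.E8helper74.FC.exists_retract` of the library) a Chow motive in the thick
subcategory is a direct summand of a good one.
-/

set_option autoImplicit false

open CategoryTheory CategoryTheory.Limits CategoryTheory.Pretriangulated AlgebraicGeometry
open Pool.Agent.Y116.UV Pool.Agent.Z125.UN Pool.Agent.Q193.LT Pool.Agent.Helper3.GU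
  Pool.Agent.Helper3.GT

universe v u

namespace Pool.Agent.Results.MP_638e8a_ag.GraphHypersurfaces

/-- **Chow-Künneth decompositions and graph hypersurfaces.** See the explanations above. -/
theorem result {k : Type} [Field k] (hk : Frac k) :
    (∀ X : Sch k, FT True X → ∃ L : List (Σ n : ℕ, SimpleGraph (Fin (n + 1))),
      (∀ G ∈ L, Subcubic G.2) ∧
      ∀ (K : Type) [Field K] (D : Type u) [Category.{v} D] [Preadditive D] [HasZeroObject D]
        [HasShift D ℤ] [∀ n : ℤ, (shiftFunctor D n).Additive] [Pretriangulated D]
        [IsTriangulated D] (T : MotiveData k K D), IsMotives T →
        ((∀ G ∈ L, T.Tame (graphS k G.2)) ∨ (∀ G ∈ L, T.Tame (graphH k G.2)) ∨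
          (∀ G ∈ L, T.Tame (graphT k G.2)) ∨ ∀ G ∈ L, T.Tame (feynmanT k G.2)) →
        T.Tame X ∧ (SmoothProj X → T.HasCK (T.Mc X) ∧ T.Nilp (T.Mc X))) ∧
    ∀ (K : Type) [Field K] (D : Type u) [Category.{v} D] [Preadditive D] [HasZeroObject D]
      [HasShift D ℤ] [∀ n : ℤ, (shiftFunctor D n).Additive] [Pretriangulated D]
      [IsTriangulated D] (T : MotiveData k K D), IsMotives T →
      List.TFAE [∀ Y : Sch k, SmoothProj Y → T.HasCK (T.Mc Y) ∧ T.Nilp (T.Mc Y),
        ∀ X : Sch k, FT True X → T.Tame X,
        ∀ (n : ℕ) (G : SimpleGraph (Fin (n + 1))), Subcubic G → T.Tame (graphS k G),
        ∀ (n : ℕ) (G : SimpleGraph (Fin (n + 1))), Subcubic G → T.Tame (graphH k G),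
        ∀ (n : ℕ) (G : SimpleGraph (Fin (n + 1))), Subcubic G → T.Tame (graphT k G),
        ∀ (n : ℕ) (G : SimpleGraph (Fin (n + 1))), Subcubic G → T.Tame (feynmanT k G)] := by
  refine ⟨fun X hX => ?_, fun K _ D _ _ _ _ _ _ _ T hT => ?_⟩
  · obtain ⟨L, hL, h⟩ := finite_list (sep := True) (presents_frac hk) X hX
    refine ⟨L, hL, fun K _ D _ _ _ _ _ _ _ T hT h1 => ?_⟩
    have h2 : T.Tame X := h _ (mot_of_bnd (bnd_tame hT)) h1
    exact ⟨h2, fun hX' => (tame_iff hT hX').1 h2⟩
  · refine cons_all (cubic_tfae (mot_of_bnd (bnd_tame hT)) (presents_frac hk)) ⟨fun h X hX => ?_,
      fun h Y hY => (tame_iff hT hY).1 (h Y hY.ft)⟩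
    exact tame_all hT (fun Y hY => (good_iff hT hY).2 (h Y hY)) X hX

end Pool.Agent.Results.MP_638e8a_ag.GraphHypersurfaces
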