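import Pool.Agent.Helper3.GT.Thick
import Pool.Agent.Helper59.IP.Lst

/-!
# Chow-Künneth decompositions and independence polynomials of graphs

Let `k` be a prime field, `D` Voevodsky's triangulated category of geometric motives over `k` with rational
coefficients, `M^c(X)` the motive with compact supports of a separated scheme `X` of finite type over `k`
(`M^c(X) = h(X)` for smooth projective `X`, `End(h(X)) = CH^d(X × X)_ℚ`), `M(a)[2a]`, `a ∈ ℤ`, the Tate twists,
and `H^j` the cohomology groups of a Weil cohomology theory with coefficients in `K`. The properties which
are used (`IsMotives`) are known: localization triangles, affine bundles, `M^c(X)[1]` is a direct summand of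
`M^c(X × 𝔾_m)`, there are no positive morphisms between Chow motives, and Chow motives generate. A Chow motive is
a direct summand of a finite direct sum of motives `h(Y)(a)[2a]`, `Y` smooth and projective (`Chow`).

A Chow motive is called **good** if its Künneth projectors are algebraic and its homologically trivial
endomorphisms form a nilpotent ideal (`Kuenneth`, `Nilp`). By the conjecture of Beilinson and Murre on
filtrations of Chow groups all Chow motives are good. The motive `h(X)` of a smooth projective `X` is good if
and only if `X` has a Chow-Künneth decomposition and the ideal is nilpotent. The scheme `X` is called **tame**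
(`Tame`) if `M^c(X)` is in the thick triangulated subcategory of `D` generated by the good Chow motives: it
can be built from finitely many good Chow motives by cones and direct summands. (For Tate motives this is
the notion of a mixed Tate motive.)

For a graph `G` with the vertices `V` let `I_G = ∑_s ∏_{v ∈ s} x_v`, the sum over the independent sets `s`
(sets of pairwise non-adjacent vertices) of `G`: the multivariate independence polynomial. It is the
partition function of the lattice gas on `G` with hard core interaction and activities `x_v`. `G` runs
through the graphs whose vertices are covered by three cliques (`ThreeCliques`), so that an independent set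
has at most three elements and `I_G` is a cubic polynomial: the sum of `∏_{v ∈ s} x_v` over all cliques `s`
of the 3-colourable complementary graph. We consider four kinds of schemes: (i) the complement of the
hypersurface `I_G = 0` in the affine space; (ii) the cubic hypersurface `I_G = 0`; (iii) its complement in the
torus; (iv) its intersection with the torus.

**Theorem.** (1) For each smooth projective scheme `X` over `k` there is a finite list `L` of graphs covered
by three cliques (depending only on `X`) such that `X` has a Chow-Künneth decomposition, and the
homologically trivial correspondences of `X` form a nilpotent ideal, if the schemes of one of the four kinds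
are tame for all `G` in `L`. (And all separated schemes `X` of finite type are tame under the same condition,
for a suitable list.)

(2) The following are equivalent: all smooth projective schemes over `k` have Chow-Künneth decompositions and
nilpotent ideals of homologically trivial correspondences; all separated schemes of finite type are tame; all
schemes of kind (i) are tame; all of kind (ii); all of kind (iii); all of kind (iv).

Proof. The tame schemes have the closure properties of the theorem on independence polynomials
(`Pool.Agent.Helper59.IP.finite_list`): let `Γ` be covered by two cliques and `A_1, …, A_m` sets of vertices.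
Add to `Γ` a vertex `w` adjacent to `Γ`, a clique of vertices `v_r` adjacent to `w` and to the vertices of `Γ`
outside of `A_r`, and a vertex `u` adjacent to the `v_r`. The graph is covered by three cliques and has the
polynomial `(1 + u)(w + I_Γ) + ∑_r v_r I_{A_r}`. Cutting along `w + I_Γ = 0`, passing from the invertible
values of `∑ v_r I_{A_r}` to the value one, and using Jouanolou's device one arrives at the common zeros of
the polynomials `I_{A_r}` of the induced subgraphs, and these describe the trilinear hypersurfaces `T = 1`,
which are universal by a theorem of the library. The good Chow motives are closed under direct sums, direct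
summands and twists, and by a weight argument (Bondarko;
`Pool.Agent.E8helper74.FC.exists_retract` of the library) a Chow motive in the thick subcategory is a direct
summand of a good one (`Pool.Agent.Helper3.GT.tame_iff`).
-/

set_option autoImplicit false

open CategoryTheory CategoryTheory.Limits CategoryTheory.Pretriangulated AlgebraicGeometry
open Pool.Agent.Y116.UV Pool.Agent.Z125.UN Pool.Agent.Q193.LT Pool.Agent.Helper3.GU
  Pool.Agent.Helper59.IP Pool.Agent.Helper3.GT

universe v u

namespace Pool.Agent.Results.MP_638e8a_ag.IndependencePolynomials

/-- **Chow-Künneth decompositions and independence polynomials.** See the explanations above. -/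
theorem result {k : Type} [Field k] (hk : Frac k) :
    (∀ X : Sch k, FT True X → ∃ L : List (Σ n : ℕ, SimpleGraph (Fin n)),
      (∀ G ∈ L, ThreeCliques G.2) ∧
      ∀ (K : Type) [Field K] (D : Type u) [Category.{v} D] [Preadditive D] [HasZeroObject D]
        [HasShift D ℤ] [∀ n : ℤ, (shiftFunctor D n).Additive] [Pretriangulated D]
        [IsTriangulated D] (T : MotiveData k K D), IsMotives T →
        ((∀ G ∈ L, T.Tame (indS k G.2)) ∨ (∀ G ∈ L, T.Tame (indH k G.2)) ∨
          (∀ G ∈ L, T.Tame (indT k G.2)) ∨ ∀ G ∈ L, T.Tame (indHT k G.2)) →
        T.Tame X ∧ (SmoothProj X → T.HasCK (T.Mc X) ∧ T.Nilp (T.Mc X))) ∧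
    ∀ (K : Type) [Field K] (D : Type u) [Category.{v} D] [Preadditive D] [HasZeroObject D]
      [HasShift D ℤ] [∀ n : ℤ, (shiftFunctor D n).Additive] [Pretriangulated D]
      [IsTriangulated D] (T : MotiveData k K D), IsMotives T →
      List.TFAE [∀ Y : Sch k, SmoothProj Y → T.HasCK (T.Mc Y) ∧ T.Nilp (T.Mc Y),
        ∀ X : Sch k, FT True X → T.Tame X,
        ∀ (n : ℕ) (G : SimpleGraph (Fin n)), ThreeCliques G → T.Tame (indS k G),
        ∀ (n : ℕ) (G : SimpleGraph (Fin n)), ThreeCliques G → T.Tame (indH k G),
        ∀ (n : ℕ) (G : SimpleGraph (Fin n)), ThreeCliques G → T.Tame (indT k G),
        ∀ (n : ℕ) (G : SimpleGraph (Fin n)), ThreeCliques G → T.Tame (indHT k G)] := by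
  refine ⟨fun X hX => ?_, fun K _ D _ _ _ _ _ _ _ T hT => ?_⟩
  · obtain ⟨L, hL, h⟩ := finite_list (sep := True) (presents_frac hk) X hX
    refine ⟨L, hL, fun K _ D _ _ _ _ _ _ _ T hT h1 => ?_⟩
    have h2 : T.Tame X := h _ (mot_of_bnd (bnd_tame hT)) h1
    exact ⟨h2, fun hX' => (tame_iff hT hX').1 h2⟩
  · exact ind_cons_all (ind_tfae (mot_of_bnd (bnd_tame hT)) (presents_frac hk))
      ⟨fun h X hX => tame_all hT (fun Y hY => (good_iff hT hY).2 (h Y hY)) X hX,
        fun h Y hY => (tame_iff hT hY).1 (h Y hY.ft)⟩

end Pool.Agent.Results.MP_638e8a_ag.IndependencePolynomials
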