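import Pool.Agent.Helper3.GT.Thick
import Pool.Agent.Helper13.RM.Perf

/-!
# Chow-Künneth decompositions and configurations of points in the plane, in each dimension

Let `k` be a prime field, `D` Voevodsky's triangulated category of geometric motives over `k` with rational
coefficients, `M^c(X)` the motive with compact supports of a separated scheme `X` of finite type over `k`
(`M^c(X) = h(X)` for smooth projective `X`), `M(a)[2a]`, `a ∈ ℤ`, the Tate twists, and `H^j` the cohomology
groups of a Weil cohomology theory with coefficients in `K`. The properties which are used (`IsMotives` and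
`IsGenerated`) are known: localization triangles, additivity, twists, the vanishing of the positive
morphisms between Chow motives, and that `M^c(X)` is in the thick subcategory generated by the motives
`h(Y)(a)[2a]`, `Y` smooth and projective with `dim Y ≤ dim X` (Voevodsky, and alterations).

A Chow motive is called **good** if its Künneth projectors are algebraic and its homologically trivial
endomorphisms form a nilpotent ideal. By the conjectures of Murre, Bloch and Beilinson all Chow motives are
good. The motive `h(X)` of a smooth projective `X` is good if and only if `X` has a Chow-Künneth decomposition and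
the ideal is nilpotent. The scheme `X` is called **tame** (`Tame`) if `M^c(X)` is in the thick triangulated
subcategory of `D` generated by the good Chow motives.

A matroid `M` of rank three on the set `Fin 4 ⊕ Fin n` is framed if any three of the four elements of
`Fin 4` form a base; it is simple if any two elements are independent. Let `modS k M` be the moduli space
of the configurations of `n + 4` different points in the projective plane in which exactly the triples
prescribed by `M` are collinear, modulo projective transformations. In coordinates: the first four points
are the points of `e_1, e_2, e_3, e_1 + e_2 + e_3`, and the other ones have normalised coordinates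
`(x, y, 1)` or `(x, 1, 0)`; three vectors have an invertible determinant if they are a base of `M`, and
the determinant zero otherwise. `SmoothMod k d M` says that `M` is framed and simple and that `modS k M` is
integral, smooth over `k` and of dimension at most `d`.

**Theorem.** (1) For each smooth projective scheme `X` over `k` there is a finite list of matroids
`M_1, …, M_s`, whose moduli spaces are smooth, integral and of dimension at most `dim X`, such that `X` has a
Chow-Künneth decomposition, and the homologically trivial correspondences of `X` form a nilpotent ideal, if
`modS k M_1, …, modS k M_s` are tame. (And all separated schemes `X` of finite type are tame under the same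
condition, for a suitable list.)

(2) For each `d` the following are equivalent: all smooth projective schemes over `k` of dimension at most
`d` have Chow-Künneth decompositions and nilpotent ideals of homologically trivial correspondences; all
separated schemes of finite type of dimension at most `d` are tame; all the moduli spaces `modS k M` with
`SmoothMod k d M` are tame.

(3) The same without bounds for the dimension.

So Q1 for varieties of dimension `d` (in the form with nilpotence) is a statement on the mixed motives of
`d`-parameter families of configurations of points and lines. In the library and in the hand-ins on graph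
hypersurfaces and sparse matrices the dimension is not preserved. For `d = 1` all the statements are true.

Proof. The tame schemes are closed under cutting (`bnd_tame`), so that the decomposition of schemes
into smooth moduli spaces of configurations (`Pool.Agent.Helper13.RM.config_list`) can be used, and by a
weight argument (Bondarko) a smooth projective tame scheme has a good motive
(`Pool.Agent.Helper3.GT.tame_iff`).
-/

set_option autoImplicit false

open CategoryTheory CategoryTheory.Limits CategoryTheory.Pretriangulated AlgebraicGeometry
open CategoryTheory.ObjectProperty
open Pool.Agent.Y116.UV Pool.Agent.Z125.UN Pool.Agent.Q193.LT Pool.Agent.Helper3.GU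
  Pool.Agent.Helper3.GT Pool.Agent.Helper13.RM

universe v u

namespace Pool.Agent.Results.MP_638e8a_ag.PlanarConfigurations

section

variable {k : Type} [Field k] {K : Type} [Field K]
  {D : Type u} [Category.{v} D] [Preadditive D] [HasZeroObject D] [HasShift D ℤ]
  [∀ n : ℤ, (shiftFunctor D n).Additive] [Pretriangulated D]

/-- Finite direct sums of the motives `h(Y)(a)[2a]`, where `Y` is smooth and projective of dimension at
most `d`. -/
inductive SumAt (T : MotiveData k K D) (d : ℕ) : D → Prop
  | zero (M : D) : IsZero M → SumAt T d M
  | var (M : D) (Y : Sch k) (a : ℤ) : SmoothProj Y → DimAt Y d →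
      Nonempty (M ≅ (T.tw a).obj (T.Mc Y)) → SumAt T d M
  | add (M N R : D) : SumAt T d M → SumAt T d N → Nonempty (R ≅ M ⊞ N) → SumAt T d R

/-- The motive `M^c(X)` of a scheme of dimension at most `d` is in the thick subcategory generated by the
motives `h(Y)(a)[2a]`, `Y` smooth and projective of dimension at most `d`. -/
def IsGenerated (T : MotiveData k K D) : Prop :=
  ∀ (d : ℕ) (X : Sch k), FT True X → DimAt X d →
    (triangEnvelope (fun M : D => SumAt T d M)) (T.Mc X)

variable {T : MotiveData k K D} (hT : IsMotives T)

include hT

/-- Tame schemes are closed under cutting. -/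
lemma cut_tame [IsTriangulated D] : Cut True T.Tame where
  iso := (bnd_tame hT).iso
  empty := empty_of_opened (bnd_tame hT).iso (bnd_tame hT).opened
    (le_triangEnvelope _ _ (good_point hT))
  total := (bnd_tame hT).total

/-- The version of `tame_all` with dimensions. -/
lemma tame_dim (hG : IsGenerated T) {d : ℕ} (h : ∀ Y : Sch k, SmoothProj Y → DimAt Y d →
    T.HasCK (T.Mc Y) ∧ T.Nilp (T.Mc Y)) (X : Sch k) (hX : FT True X) (hd : DimAt X d) :
    T.Tame X := by
  have h1 : (fun M : D => SumAt T d M : ObjectProperty D) ≤ T.good := by
    intro M hM
    change SumAt T d M at hM
    induction hM with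
    | zero M h => exact good_zero hT h
    | var M Y a hY hd e =>
      obtain ⟨e⟩ := e
      exact good_retract (Retract.ofIso e) (good_tw hT a ((good_iff hT hY).2 (h Y hY hd)))
    | add M N R _ _ e h1 h2 =>
      obtain ⟨e⟩ := e
      exact good_sum hT e h1 h2
  exact monotone_triangEnvelope h1 _ (hG d X hX hd)

end

/-- **Chow-Künneth decompositions and planar configurations.** See the explanations above. -/
theorem result {k : Type} [Field k] (hk : Frac k) :
    (∀ X : Sch k, FT True X →
      ∃ L : List Mat, (∀ M ∈ L, SmoothMod k (topologicalKrullDim X.left) M.2) ∧
        ∀ (K : Type) [Field K] (D : Type u) [Category.{v} D] [Preadditive D] [HasZeroObject D]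
          [HasShift D ℤ] [∀ n : ℤ, (shiftFunctor D n).Additive] [Pretriangulated D]
          [IsTriangulated D] (T : MotiveData k K D), IsMotives T →
          (∀ M ∈ L, T.Tame (modS k M.2)) →
            T.Tame X ∧ (SmoothProj X → T.HasCK (T.Mc X) ∧ T.Nilp (T.Mc X))) ∧
    ∀ (K : Type) [Field K] (D : Type u) [Category.{v} D] [Preadditive D] [HasZeroObject D]
      [HasShift D ℤ] [∀ n : ℤ, (shiftFunctor D n).Additive] [Pretriangulated D]
      [IsTriangulated D] (T : MotiveData k K D), IsMotives T →
      (IsGenerated T → ∀ d : ℕ,
        List.TFAE [∀ Y : Sch k, SmoothProj Y → DimAt Y d → T.HasCK (T.Mc Y) ∧ T.Nilp (T.Mc Y),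
          ∀ X : Sch k, FT True X → DimAt X d → T.Tame X,
          ∀ (n : ℕ) (M : Matroid (Fin 4 ⊕ Fin n)), SmoothMod k d M → T.Tame (modS k M)]) ∧
      List.TFAE [∀ Y : Sch k, SmoothProj Y → T.HasCK (T.Mc Y) ∧ T.Nilp (T.Mc Y),
        ∀ X : Sch k, FT True X → T.Tame X,
        ∀ (d n : ℕ) (M : Matroid (Fin 4 ⊕ Fin n)), SmoothMod k d M → T.Tame (modS k M)] := by
  have hpf := perfect_of_frac hk
  have hR := presents_frac hk
  refine ⟨fun X hX => ?_, fun K _ D _ _ _ _ _ _ _ T hT => ⟨fun hG d => ?_, ?_⟩⟩
  · obtain ⟨L, hL, h⟩ := config_list (sep := True) hR X hX
    refine ⟨L, hL, fun K _ D _ _ _ _ _ _ _ T hT h1 => ?_⟩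
    have h2 : T.Tame X := h _ (cut_tame hT) h1
    exact ⟨h2, fun hX' => (tame_iff hT hX').1 h2⟩
  · tfae_have 1 → 2 := fun h X hX hd => tame_dim hT hG h X hX hd
    tfae_have 2 → 1 := fun h Y hY hd => (tame_iff hT hY).1 (h Y hY.ft hd)
    tfae_have 2 ↔ 3 := config_iff_smooth (cut_tame hT) hR d
    tfae_finish
  · tfae_have 1 → 2 := fun h X hX => tame_all hT (fun Y hY => (good_iff hT hY).2 (h Y hY)) X hX
    tfae_have 2 → 1 := fun h Y hY => (tame_iff hT hY).1 (h Y hY.ft)
    tfae_have 2 → 3 := fun h d n M hM => h _ (ft_modT _)
    tfae_have 3 → 2 := fun h X hX => config_smooth (cut_tame hT) hR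
      (fun m M h1 h2 h3 h4 => h (3 * m) m M ⟨h1, h2, h3, h4, dim_modT _⟩) X hX
    tfae_finish

end Pool.Agent.Results.MP_638e8a_ag.PlanarConfigurations
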