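import Pool.Agent.Helper3.GT.Thick
import Pool.Agent.Helper3.GM.App2

/-!
# Chow-Künneth decompositions and sparse matrices

Let `k` be a prime field, `D` Voevodsky's triangulated category of geometric motives over `k` with rational
coefficients, `M^c(X)` the motive with compact supports of a separated scheme `X` of finite type over `k`
(`M^c(X) = h(X)` for smooth projective `X`, `End(h(X)) = CH^d(X × X)_ℚ`), `M(a)[2a]`, `a ∈ ℤ`, the Tate twists,
and `H^j` the cohomology groups of a Weil cohomology theory with coefficients in `K`. The properties which
are used (`IsMotives`) are known: localization triangles, affine bundles, `M^c(X)[1]` is a direct summand of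
`M^c(X × 𝔾_m)`, there are no positive morphisms between Chow motives, and Chow motives generate. A Chow motive is
a direct summand of a finite direct sum of motives `h(Y)(a)[2a]`, `Y` smooth and projective (`Chow`).

A Chow motive is called **good** if its Künneth projectors are algebraic and its homologically trivial
endomorphisms form a nilpotent ideal (`Kuenneth`, `Nilp`). By the conjecture of Beilinson and Murre on
filtrations of Chow groups all Chow motives are good; products of curves, abelian varieties etc. are known to
be good. The motive `h(X)` of a smooth projective `X` is good if and only if `X` has a Chow-Künneth decomposition and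
the ideal is nilpotent. The scheme `X` is called **tame** (`Tame`) if `M^c(X)` is in the thick triangulated
subcategory of `D` generated by the good Chow motives: it can be built from finitely many good Chow motives by
cones and direct summands. (For Tate motives this is the notion of a mixed Tate motive.)

For a set `S` of positions in the `n × n` matrices with at most three positions in each row and in each
column (`Sparse`) let `detS` be the determinant of the generic matrix with zeros outside of `S`. (With two
positions instead of three it would be a product of monomials and binomials.) We consider four kinds of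
schemes: (i) the invertible matrices with zeros outside of `S`; (ii) the matrices of determinant one with zeros
outside of `S`; (iii) the matrices of determinant zero with zeros outside of `S`; (iv) the invertible matrices
with zeros outside of `S` and invertible entries at all positions in `S`.

**Theorem.** (1) For each smooth projective scheme `X` over `k` there is a finite list `L` of such sets of
positions (depending only on `X`) such that `X` has a Chow-Künneth decomposition, and the homologically trivial
correspondences of `X` form a nilpotent ideal, if the schemes of one of the four kinds are tame for all `S` in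
`L`. (And all separated schemes `X` of finite type are tame under the same condition, for a suitable list.)

(2) The following are equivalent: all smooth projective schemes over `k` have Chow-Künneth decompositions and
nilpotent ideals of homologically trivial correspondences; all separated schemes of finite type are tame; all
schemes of kind (i) are tame; all of kind (ii); all of kind (iii); all of kind (iv).

Proof. The tame schemes have the closure properties of the theorem on matrices with prescribed zeros
(`Pool.Agent.Helper3.GM.mat_finite`). The good Chow motives are closed under direct sums, direct summands and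
twists, and by a weight argument (Bondarko; `Pool.Agent.E8helper74.FC.exists_retract` of the library) a Chow
motive in the thick subcategory is a direct summand of a good one.
-/

set_option autoImplicit false

open CategoryTheory CategoryTheory.Limits CategoryTheory.Pretriangulated AlgebraicGeometry
open Pool.Agent.Y116.UV Pool.Agent.Z125.UN Pool.Agent.Q193.LT Pool.Agent.Helper3.GU
  Pool.Agent.Helper3.GM Pool.Agent.Helper3.GT

universe v u

namespace Pool.Agent.Results.MP_638e8a_ag.SparseMatrices

/-- **Chow-Künneth decompositions and sparse matrices.** See the explanations above. -/
theorem result {k : Type} [Field k] (hk : Frac k) :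
    (∀ X : Sch k, FT True X → ∃ L : List (Σ n : ℕ, Finset (Fin n × Fin n)),
      (∀ S ∈ L, Sparse S.2) ∧
      ∀ (K : Type) [Field K] (D : Type u) [Category.{v} D] [Preadditive D] [HasZeroObject D]
        [HasShift D ℤ] [∀ n : ℤ, (shiftFunctor D n).Additive] [Pretriangulated D]
        [IsTriangulated D] (T : MotiveData k K D), IsMotives T → OneKind T.Tame L →
        T.Tame X ∧ (SmoothProj X → T.HasCK (T.Mc X) ∧ T.Nilp (T.Mc X))) ∧
    ∀ (K : Type) [Field K] (D : Type u) [Category.{v} D] [Preadditive D] [HasZeroObject D]
      [HasShift D ℤ] [∀ n : ℤ, (shiftFunctor D n).Additive] [Pretriangulated D]
      [IsTriangulated D] (T : MotiveData k K D), IsMotives T →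
      List.TFAE [∀ Y : Sch k, SmoothProj Y → T.HasCK (T.Mc Y) ∧ T.Nilp (T.Mc Y),
        ∀ X : Sch k, FT True X → T.Tame X,
        ∀ (n : ℕ) (S : Finset (Fin n × Fin n)), Sparse S → T.Tame (invS k S),
        ∀ (n : ℕ) (S : Finset (Fin n × Fin n)), Sparse S → T.Tame (oneS k S),
        ∀ (n : ℕ) (S : Finset (Fin n × Fin n)), Sparse S → T.Tame (zeroS k S),
        ∀ (n : ℕ) (S : Finset (Fin n × Fin n)), Sparse S → T.Tame (torS k S)] := by
  refine ⟨fun X hX => ?_, fun K _ D _ _ _ _ _ _ _ T hT => ?_⟩
  · obtain ⟨L, hL, h⟩ := mat_finite (sep := True) (presents_frac hk) X hX
    refine ⟨L, hL, fun K _ D _ _ _ _ _ _ _ T hT h1 => ?_⟩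
    have h2 : T.Tame X := h _ (mot_of_bnd (bnd_tame hT)) h1
    exact ⟨h2, fun hX' => (tame_iff hT hX').1 h2⟩
  · refine stmts_cons (mat_tfae (mot_of_bnd (bnd_tame hT)) (presents_frac hk)) ⟨fun h X hX => ?_,
      fun h Y hY => (tame_iff hT hY).1 (h Y hY.ft)⟩
    exact tame_all hT (fun Y hY => (good_iff hT hY).2 (h Y hY)) X hX

end Pool.Agent.Results.MP_638e8a_ag.SparseMatrices
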